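import Pool.Agent.Helper81.Sus3.Goals
import Pool.Agent.Helper81.Sus2.LSE

/-!
# The edges are computed in linear space (Sus3)
-/

namespace Pool.Agent.Helper56.Sus3

open Pool.Agent.Helper65.LinSpace Pool.Agent.Helper78.Mpc Pool.Agent.Helper28.Ram Finset Filter
open Pool.Agent.Helper81.Sus2 Pool.Agent.Helper28.Sus Pool.Agent.Helper81.Sus2H56
open Pool.Agent.Helper81.Sus2H14 (ls_pV ls_pu)
open Pool.Agent.Helper81.Sus3 (iC iP iZ)
open Pool.Agent.Helper31.SusD (nxt nxt_lt)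

theorem eq01_le (x y : ℕ) : eq01 x y ≤ 1 := by unfold eq01; split_ifs <;> omega

theorem lt01_le (x y : ℕ) : lt01 x y ≤ 1 := by unfold lt01; split_ifs <;> omega

theorem all_le (P : Prm) (F : ℕ → ℕ → ℕ → ℕ → ℕ → ℕ → ℕ → ℕ) (m c p d p' Y τ : ℕ) :
    Pool.Agent.Helper81.Sus3.all P F m c p d p' Y τ ≤ 1 := eq01_le _ _

theorem chk_le (P : Prm) (F : ℕ → ℕ → ℕ → ℕ → ℕ → ℕ → ℕ → ℕ) (Y e τ e' : ℕ) :
    Pool.Agent.Helper81.Sus3.chk P F Y e τ e' ≤ 1 := by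
  unfold Pool.Agent.Helper81.Sus3.chk
  have h1 := lt01_le 0 τ
  have h2 := lt01_le 0 (iC P e')
  have h3 := all_le P F 1 (iC P e) (iP P e) (iC P e') (iP P e') Y τ
  calc _ ≤ 1 * (1 * 1) := Nat.mul_le_mul h1 (Nat.mul_le_mul h2 h3)
    _ = 1 := by norm_num

theorem fin_le (P : Prm) (F : ℕ → ℕ → ℕ → ℕ → ℕ → ℕ → ℕ → ℕ) (d Y e τ : ℕ) :
    Pool.Agent.Helper81.Sus3.fin P F d Y e τ ≤ 1 := all_le _ _ _ _ _ _ _ _ _

section

variable {β : Type} [Ctx β] {P : β → Prm} {C : β → ℕ}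
  {F : β → ℕ → ℕ → ℕ → ℕ → ℕ → ℕ → ℕ → ℕ}

/-- the hypothesis on `F` -/
def LF (F : β → ℕ → ℕ → ℕ → ℕ → ℕ → ℕ → ℕ → ℕ) : Prop :=
  LS (fun z : β × ℕ × ℕ × ℕ × ℕ × ℕ × ℕ × ℕ => F z.1 z.2.1 z.2.2.1 z.2.2.2.1 z.2.2.2.2.1
    z.2.2.2.2.2.1 z.2.2.2.2.2.2.1 z.2.2.2.2.2.2.2)

theorem lf_comp {γ : Type} [Ctx γ] (h : LF F) {π : γ → β} (hπ : LS π) :
    LF (fun b => F (π b)) := by
  unfold LF at h ⊢
  have hπ' : LS (fun z : γ × ℕ × ℕ × ℕ × ℕ × ℕ × ℕ × ℕ => π z.1) := LS.comp (g := π) hπ LS.fst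
  exact LS.comp (g := fun z : β × ℕ × ℕ × ℕ × ℕ × ℕ × ℕ × ℕ => F z.1 z.2.1 z.2.2.1 z.2.2.2.1
    z.2.2.2.2.1 z.2.2.2.2.2.1 z.2.2.2.2.2.2.1 z.2.2.2.2.2.2.2)
    (f := fun z : γ × ℕ × ℕ × ℕ × ℕ × ℕ × ℕ × ℕ => (π z.1, z.2)) h (by fun_prop)

theorem ls_bad (h : LSP P C) (hF : LF F) {m c p d p' Y τ a : β → ℕ} (hm : LS m) (hc : LS c)
    (hp : LS p) (hd : LS d) (hp' : LS p') (hY : LS Y) (hτ : LS τ) (ha : LS a) :
    LS fun z => Pool.Agent.Helper81.Sus3.bad (P z) (F z) (m z) (c z) (p z) (d z) (p' z) (Y z)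
      (τ z) (a z) := by
  unfold Pool.Agent.Helper81.Sus3.bad
  have hcl : LS fun z => (P z).cl (d z) (a z) := ls_cl h hd ha
  have hro : LS fun z => Prm.ro (a z) := ls_ro ha
  have hFF : LS fun z => F z (c z) (p z) (d z) (p' z) (Y z) (τ z) (a z) :=
    LS.comp (g := fun z : β × ℕ × ℕ × ℕ × ℕ × ℕ × ℕ × ℕ => F z.1 z.2.1 z.2.2.1 z.2.2.2.1
      z.2.2.2.2.1 z.2.2.2.2.2.1 z.2.2.2.2.2.2.1 z.2.2.2.2.2.2.2)
      (f := fun z : β => (z, c z, p z, d z, p' z, Y z, τ z, a z)) hF (by fun_prop)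
  exact LS.ifz (LS.ifz ha (LS.const 1) (LS.mul (LS.lt01 (LS.const 0) hd)
    (LS.mul (LS.sub (LS.const 1) hro) (LS.ifz hm (LS.lt01 (LS.const 0) hcl) (LS.const 1)))))
    (LS.const 0) (LS.sub (LS.const 1) (LS.eq01 hFF (LS.const 1)))

theorem ls_all (h : LSP P C) (hF : LF F) {m c p d p' Y τ : β → ℕ} (hm : LS m) (hc : LS c)
    (hp : LS p) (hd : LS d) (hp' : LS p') (hY : LS Y) (hτ : LS τ) :
    LS fun z => Pool.Agent.Helper81.Sus3.all (P z) (F z) (m z) (c z) (p z) (d z) (p' z) (Y z)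
      (τ z) := by
  unfold Pool.Agent.Helper81.Sus3.all
  refine LS.eq01 ?_ (LS.const 0)
  refine LS.sum_le (N := fun z => 2 ^ ((P z).S + 1)) (B := fun _ => 1)
    (f := fun z a => Pool.Agent.Helper81.Sus3.bad (P z) (F z) (m z) (c z) (p z) (d z) (p' z)
      (Y z) (τ z) a) ?_ (ls_pS h) (LS.const 1) fun z a _ => ?_
  · exact ls_bad (β := β × ℕ) (P := fun z => P z.1) (C := fun z => C z.1) (F := fun z => F z.1)
      (lsp_comp h LS.fst) (lf_comp hF LS.fst) (m := fun z => m z.1) (c := fun z => c z.1)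
      (p := fun z => p z.1) (d := fun z => d z.1) (p' := fun z => p' z.1) (Y := fun z => Y z.1)
      (τ := fun z => τ z.1) (a := fun z => z.2) (LS.comp (g := m) hm LS.fst)
      (LS.comp (g := c) hc LS.fst) (LS.comp (g := p) hp LS.fst) (LS.comp (g := d) hd LS.fst)
      (LS.comp (g := p') hp' LS.fst) (LS.comp (g := Y) hY LS.fst) (LS.comp (g := τ) hτ LS.fst)
      (by fun_prop)
  · unfold Pool.Agent.Helper81.Sus3.bad ifz
    split_ifs <;> omega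

theorem ls_iC (h : LSP P C) {e : β → ℕ} (he : LS e) : LS fun z => iC (P z) (e z) := by
  unfold iC
  exact LS.div he (LS.add h.u (LS.const 1))

theorem ls_iP (h : LSP P C) {e : β → ℕ} (he : LS e) : LS fun z => iP (P z) (e z) := by
  unfold iP
  exact LS.mod he (LS.add h.u (LS.const 1))

theorem ls_iZ (h : LSP P C) : LS fun z => iZ (P z) := by
  unfold iZ
  have h1 : LS fun z => 2 ^ ((P z).u + 1) := by
    have : (fun z => 2 ^ ((P z).u + 1)) = fun z => 2 ^ (P z).u * 2 := by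
      funext z
      rw [pow_succ]
    rw [this]
    exact LS.mul (ls_pu h) (LS.const 2)
  exact LS.mul (LS.add h.u (LS.const 1)) (LS.add (LS.const 2) (LS.mul (ls_pS h) h1))

theorem ls_chk (h : LSP P C) (hF : LF F) {Y e τ e' : β → ℕ} (hY : LS Y) (he : LS e)
    (hτ : LS τ) (he' : LS e') :
    LS fun z => Pool.Agent.Helper81.Sus3.chk (P z) (F z) (Y z) (e z) (τ z) (e' z) := by
  unfold Pool.Agent.Helper81.Sus3.chk
  exact LS.mul (LS.lt01 (LS.const 0) hτ) (LS.mul (LS.lt01 (LS.const 0) (ls_iC h he'))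
    (ls_all h hF (LS.const 1) (ls_iC h he) (ls_iP h he) (ls_iC h he') (ls_iP h he') hY hτ))

theorem ls_fin (h : LSP P C) (hF : LF F) {d Y e τ : β → ℕ} (hd : LS d) (hY : LS Y) (he : LS e)
    (hτ : LS τ) :
    LS fun z => Pool.Agent.Helper81.Sus3.fin (P z) (F z) (d z) (Y z) (e z) (τ z) := by
  unfold Pool.Agent.Helper81.Sus3.fin
  exact ls_all h hF (LS.const 0) (ls_iC h he) (ls_iP h he) hd (LS.add h.u (LS.const 1)) hY hτ

theorem ls_seq (h : LSP P C) (hF : LF F) {Y c j : β → ℕ} (hY : LS Y) (hc : LS c) (hj : LS j) :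
    LS fun z => Pool.Agent.Helper81.Sus3.seq (P z) (F z) (Y z) (c z) (j z) := by
  unfold Pool.Agent.Helper81.Sus3.seq
  have hG : LS fun z => ((P z).u + 1) * c z := LS.mul (LS.add h.u (LS.const 1)) hc
  refine LS.nrec (G := fun z => ((P z).u + 1) * c z) (N := j)
    (C := fun z => ((P z).u + 1) * c z + (iZ (P z) + 1))
    (K := fun z _ e => nxt (Pool.Agent.Helper81.Sus3.chk (P z) (F z) (Y z)) (2 ^ (P z).V)
      (iZ (P z)) e) hG hj (LS.add hG (LS.add (ls_iZ h) (LS.const 1))) ?_ ?_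
  · have hpV := ls_pV h
    have hiZ := ls_iZ h
    refine Pool.Agent.Helper31.SusD.LS.nxt (α := β × ℕ × ℕ)
      (chk := fun z => Pool.Agent.Helper81.Sus3.chk (P z.1) (F z.1) (Y z.1))
      (N := fun z => 2 ^ (P z.1).V) (Z := fun z => iZ (P z.1)) (c := fun z => z.2.2)
      (LS.comp (g := fun z => 2 ^ (P z).V) hpV LS.fst)
      (LS.comp (g := fun z => iZ (P z)) hiZ LS.fst) (by fun_prop) ?_ fun a c τ d => chk_le _ _ _ _ _ _
    have hπ : LS (fun z : (β × ℕ × ℕ) × ℕ × ℕ × ℕ => z.1.1) := by fun_prop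
    exact ls_chk (β := (β × ℕ × ℕ) × ℕ × ℕ × ℕ) (P := fun z => P z.1.1) (C := fun z => C z.1.1)
      (F := fun z => F z.1.1) (lsp_comp h hπ) (lf_comp hF hπ) (Y := fun z => Y z.1.1)
      (e := fun z => z.2.1) (τ := fun z => z.2.2.1) (e' := fun z => z.2.2.2)
      (LS.comp (g := Y) hY hπ) (by fun_prop) (by fun_prop) (by fun_prop)
  · intro a i _
    cases i with
    | zero => exact Nat.le_add_right _ _
    | succ i =>
      have hZ : 0 < iZ (P a) := by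
        unfold iZ
        positivity
      have := nxt_lt (Pool.Agent.Helper81.Sus3.chk (P a) (F a) (Y a)) (2 ^ (P a).V) hZ
        (nrec (((P a).u + 1) * c a) (fun _ e => nxt (Pool.Agent.Helper81.Sus3.chk (P a) (F a)
          (Y a)) (2 ^ (P a).V) (iZ (P a)) e) i)
      show nxt (Pool.Agent.Helper81.Sus3.chk (P a) (F a) (Y a)) (2 ^ (P a).V) (iZ (P a)) _ ≤ _
      omega

end

theorem lse : Pool.Agent.Helper81.Sus3.LSE_stmt := by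
  intro α _ P C h F hF
  -- the context with all variables
  have hπ4 : LS (fun z : (((α × ℕ × ℕ) × ℕ) × ℕ) × ℕ => z.1.1.1.1) := by fun_prop
  have h4 : LSP (fun z : (((α × ℕ × ℕ) × ℕ) × ℕ) × ℕ => P z.1.1.1.1)
      (fun z => C z.1.1.1.1) := lsp_comp h hπ4
  have hF4 : LF (fun z : (((α × ℕ × ℕ) × ℕ) × ℕ) × ℕ => F z.1.1.1.1) := lf_comp hF hπ4
  have hseq : LS (fun z : (((α × ℕ × ℕ) × ℕ) × ℕ) × ℕ =>
      Pool.Agent.Helper81.Sus3.seq (P z.1.1.1.1) (F z.1.1.1.1) z.1.1.2 z.1.1.1.2.1 z.1.2) :=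
    ls_seq h4 hF4 (by fun_prop) (by fun_prop) (by fun_prop)
  have hfin : LS (fun z : (((α × ℕ × ℕ) × ℕ) × ℕ) × ℕ =>
      Pool.Agent.Helper81.Sus3.fin (P z.1.1.1.1) (F z.1.1.1.1) z.1.1.1.2.2 z.1.1.2
        (Pool.Agent.Helper81.Sus3.seq (P z.1.1.1.1) (F z.1.1.1.1) z.1.1.2 z.1.1.1.2.1 z.1.2)
        z.2) :=
    ls_fin h4 hF4 (by fun_prop) (by fun_prop) hseq (by fun_prop)
  have hle : ∀ (P : Prm) (F : ℕ → ℕ → ℕ → ℕ → ℕ → ℕ → ℕ → ℕ) (s d Y e τ : ℕ),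
      lt01 0 s * Pool.Agent.Helper81.Sus3.fin P F d Y e τ ≤ 1 := fun P F s d Y e τ =>
    (Nat.mul_le_mul (lt01_le _ _) (fin_le _ _ _ _ _ _)).trans (by norm_num)
  have h3 : LSP (fun z : ((α × ℕ × ℕ) × ℕ) × ℕ => P z.1.1.1) (fun z => C z.1.1.1) :=
    lsp_comp h (by fun_prop)
  have hs1 : LS (fun z : ((α × ℕ × ℕ) × ℕ) × ℕ => ∑ τ ∈ range (2 ^ (P z.1.1.1).V),
      lt01 0 (Pool.Agent.Helper81.Sus3.seq (P z.1.1.1) (F z.1.1.1) z.1.2 z.1.1.2.1 z.2) *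
        Pool.Agent.Helper81.Sus3.fin (P z.1.1.1) (F z.1.1.1) z.1.1.2.2 z.1.2
          (Pool.Agent.Helper81.Sus3.seq (P z.1.1.1) (F z.1.1.1) z.1.2 z.1.1.2.1 z.2) τ) :=
    LS.sum_le (N := fun z : ((α × ℕ × ℕ) × ℕ) × ℕ => 2 ^ (P z.1.1.1).V) (B := fun _ => 1)
      (f := fun z τ => lt01 0 (Pool.Agent.Helper81.Sus3.seq (P z.1.1.1) (F z.1.1.1) z.1.2
        z.1.1.2.1 z.2) * Pool.Agent.Helper81.Sus3.fin (P z.1.1.1) (F z.1.1.1) z.1.1.2.2 z.1.2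
          (Pool.Agent.Helper81.Sus3.seq (P z.1.1.1) (F z.1.1.1) z.1.2 z.1.1.2.1 z.2) τ)
      (LS.mul (LS.lt01 (LS.const 0) hseq) hfin) (ls_pV h3) (LS.const 1)
      fun z a _ => hle _ _ _ _ _ _ _
  have h2 : LSP (fun z : (α × ℕ × ℕ) × ℕ => P z.1.1) (fun z => C z.1.1) :=
    lsp_comp h (by fun_prop)
  have hb1 : ∀ (P : Prm) (F : ℕ → ℕ → ℕ → ℕ → ℕ → ℕ → ℕ → ℕ) (c d Y j : ℕ),
      ∑ τ ∈ range (2 ^ P.V), lt01 0 (Pool.Agent.Helper81.Sus3.seq P F Y c j) *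
        Pool.Agent.Helper81.Sus3.fin P F d Y (Pool.Agent.Helper81.Sus3.seq P F Y c j) τ ≤
      2 ^ P.V := fun P F c d Y j => by
    refine (sum_le_sum (g := fun _ => 1) fun i _ => hle _ _ _ _ _ _ _).trans ?_
    simp
  have hs2 : LS (fun z : (α × ℕ × ℕ) × ℕ => ∑ j ∈ range (iZ (P z.1.1) + 1),
      ∑ τ ∈ range (2 ^ (P z.1.1).V),
      lt01 0 (Pool.Agent.Helper81.Sus3.seq (P z.1.1) (F z.1.1) z.2 z.1.2.1 j) *
        Pool.Agent.Helper81.Sus3.fin (P z.1.1) (F z.1.1) z.1.2.2 z.2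
          (Pool.Agent.Helper81.Sus3.seq (P z.1.1) (F z.1.1) z.2 z.1.2.1 j) τ) :=
    LS.sum_le (N := fun z : (α × ℕ × ℕ) × ℕ => iZ (P z.1.1) + 1)
      (B := fun z => 2 ^ (P z.1.1).V)
      (f := fun z j => ∑ τ ∈ range (2 ^ (P z.1.1).V),
      lt01 0 (Pool.Agent.Helper81.Sus3.seq (P z.1.1) (F z.1.1) z.2 z.1.2.1 j) *
        Pool.Agent.Helper81.Sus3.fin (P z.1.1) (F z.1.1) z.1.2.2 z.2
          (Pool.Agent.Helper81.Sus3.seq (P z.1.1) (F z.1.1) z.2 z.1.2.1 j) τ)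
      hs1 (LS.add (ls_iZ h2) (LS.const 1)) (ls_pV h2) fun z a _ => hb1 _ _ _ _ _ _
  have h1 : LSP (fun z : α × ℕ × ℕ => P z.1) (fun z => C z.1) := lsp_comp h (by fun_prop)
  have hs3 : LS (fun z : α × ℕ × ℕ => ∑ Y ∈ range (2 ^ (P z.1).u),
      ∑ j ∈ range (iZ (P z.1) + 1), ∑ τ ∈ range (2 ^ (P z.1).V),
      lt01 0 (Pool.Agent.Helper81.Sus3.seq (P z.1) (F z.1) Y z.2.1 j) *
        Pool.Agent.Helper81.Sus3.fin (P z.1) (F z.1) z.2.2 Y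
          (Pool.Agent.Helper81.Sus3.seq (P z.1) (F z.1) Y z.2.1 j) τ) := by
    refine LS.sum_le (N := fun z : α × ℕ × ℕ => 2 ^ (P z.1).u)
      (B := fun z => (iZ (P z.1) + 1) * 2 ^ (P z.1).V)
      (f := fun z Y => ∑ j ∈ range (iZ (P z.1) + 1), ∑ τ ∈ range (2 ^ (P z.1).V),
      lt01 0 (Pool.Agent.Helper81.Sus3.seq (P z.1) (F z.1) Y z.2.1 j) *
        Pool.Agent.Helper81.Sus3.fin (P z.1) (F z.1) z.2.2 Y
          (Pool.Agent.Helper81.Sus3.seq (P z.1) (F z.1) Y z.2.1 j) τ)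
      hs2 (ls_pu h1) (LS.mul (LS.add (ls_iZ h1) (LS.const 1)) (ls_pV h1)) fun z Y _ => ?_
    refine (sum_le_sum (g := fun _ => 2 ^ (P z.1).V) fun i _ => hb1 _ _ _ _ _ _).trans ?_
    simp
  have hc : LS (fun z : α × ℕ × ℕ => z.2.1) := by fun_prop
  have hd : LS (fun z : α × ℕ × ℕ => z.2.2) := by fun_prop
  unfold Pool.Agent.Helper81.Sus3.edge
  exact LS.add (LS.eq01 hc hd) (LS.mul (LS.lt01 (LS.const 0) hc)
    (LS.mul (LS.ifz hd (LS.const 1) (LS.lt01 (LS.const 1) hd)) (LS.lt01 (LS.const 0) hs3)))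

end Pool.Agent.Helper56.Sus3
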